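import Pool.Agent.Y743.LR.NX

/-!
# The normalised zeta zeros are not close to a lattice, even locally

Assume the Riemann hypothesis.  For every `C` there is `ε > 0` such that for all large `N`, every
real `b` and every real sequence `x` whose mean cube `(1/N) ∑_{n ≤ N} |x_n|³` is at most `C`, at
least `ε N` of the indices `n ≤ N` satisfy `|δ_n - b - (x_{n+1} - x_n)| ≥ ε`.

So the normalised zeros are not, even up to small errors and with a bounded number of exceptions per
window, of the form `c + b n + x_n` with displacements `x_n` of bounded third moment; in particular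
this holds for displacements which are given by a local rule `x_n = F(δ_n, …, δ_{n+k-1})` with a
function `F` of at most linear growth.  No limit law of the sequence of the normalised gaps is that
of a perturbed lattice with displacements in `L³`.

Idea of the proof.  Otherwise there are heights `T → ∞` such that `G_n = y_n - x_n`, where `y_n` are
the ordinates at the scale of the mean spacing, is locally linear for almost all `n`, with slope one.
Then the number of zeros in a window of length `a` mean spacings differs from `a` by a quantity whose
mean square is bounded uniformly in `a`.  But this mean square, the number variance, is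
`π⁻² log (1 + a) + O(1)`.  The third moments of the gaps and of the counts are used to pass from the
indices to the heights and to control the exceptions.
-/

set_option autoImplicit false

open Filter

namespace Pool.Agent.Results.MP_21f43f_nt.NotNearLattice

/-- multiplicity of `s` as a zero of the Riemann zeta function (order of vanishing at `s`) -/
noncomputable def zmult (s : ℂ) : ℕ := analyticOrderNatAt riemannZeta s

/-- the number of nontrivial zeros of `ζ` with ordinate in `(0, t]`, with multiplicity -/
noncomputable def NZ (t : ℝ) : ℕ :=
  ∑ᶠ s ∈ {s : ℂ | riemannZeta s = 0 ∧ 0 < s.re ∧ s.re < 1 ∧ 0 < s.im ∧ s.im ≤ t}, zmult s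

/-- for `n ≥ 1`: the `n`-th positive ordinate `γ n` of a nontrivial zero of `ζ`, the ordinates being
listed in nondecreasing order and repeated according to multiplicity -/
noncomputable def γ (n : ℕ) : ℝ := sInf {t : ℝ | n ≤ NZ t}

/-- the normalised ordinates `γ_n log γ_n / 2π` -/
noncomputable def γt (n : ℕ) : ℝ := γ n * Real.log (γ n) / (2 * Real.pi)

/-- the normalised gaps -/
noncomputable def δ (n : ℕ) : ℝ := γt (n + 1) - γt n

/-- **Theorem.** On the Riemann hypothesis, for every `C` there is `ε > 0` such that for all large
`N`, every sequence `x` with mean cube at most `C` over `n ≤ N` and every real `b`, the normalised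
gap `δ_n` differs from `b + (x_{n+1} - x_n)` by at least `ε` for at least `ε N` indices `n ≤ N`. -/
theorem result (RH : RiemannHypothesis) (C : ℝ) :
    ∃ ε : ℝ, 0 < ε ∧ ∀ᶠ N : ℕ in atTop, ∀ (x : ℕ → ℝ) (b : ℝ),
      ∑ n ∈ Finset.Icc 1 N, |x n| ^ 3 ≤ C * N →
        ε * N ≤ ({n : ℕ | 1 ≤ n ∧ n ≤ N ∧ ε ≤ |δ n - b - (x (n + 1) - x n)|}.ncard : ℝ) := by
  obtain ⟨ε, hε, h⟩ := Pool.Agent.Y743.LR.lattice RH C
  refine ⟨ε, hε, ?_⟩
  filter_upwards [h] with N hN x b hx
  have e : ∀ n, LG.dlt n = δ n := by
    intro n
    unfold LG.dlt δ γt
    have e1 : SG.ord = γ := rfl
    rw [e1]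
    ring
  have h1 := hN x b hx
  simp only [e] at h1
  exact h1

end Pool.Agent.Results.MP_21f43f_nt.NotNearLattice
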